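import Pool.Agent.helper17.Tw.Red
import Pool.Agent.H48.CN.Main

/-!
# Infinitely many square classes among the values of a polynomial along an orbit

`engine_of`: the two statements about arcs of the egg enter as hypotheses.
-/

namespace H17.Tw

open WeierstrassCurve WeierstrassCurve.Affine H48.CN Polynomial
open scoped NumberTheorySymbols

/-! ### Large primes -/

theorem pv_large {q : ℚ} (hq : q ≠ 0) :
    ∃ L : ℕ, ∀ (l : ℕ) [Fact l.Prime], L < l → pv l q = 1 := by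
  refine ⟨q.num.natAbs + q.den, fun l _ hl => ?_⟩
  have hnum : q.num ≠ 0 := Rat.num_ne_zero.2 hq
  have h1 : pv l ((q.den : ℕ) : ℚ) = 1 :=
    pv_nat_one (fun h => absurd (Nat.le_of_dvd q.den_pos h) (by omega))
  have h2 : pv l ((q.num.natAbs : ℕ) : ℚ) = 1 :=
    pv_nat_one (fun h => absurd (Nat.le_of_dvd (Int.natAbs_pos.2 hnum) h) (by omega))
  have h3 : pv l ((q.num : ℤ) : ℚ) = 1 := by
    rcases Int.natAbs_eq q.num with h | h
    · rw [h, Int.cast_natCast]; exact h2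
    · rw [h, Int.cast_neg, Int.cast_natCast, pv_neg]; exact h2
  have h4 : q * (q.den : ℚ) = q.num := Rat.mul_den_eq_num q
  have h5 : pv l q * pv l (q.den : ℚ) = 1 := by rw [← pv_mul, h4]; exact h3
  rw [h1, mul_one] at h5
  exact h5

theorem mem_large (q : ℚ) : ∃ L : ℕ, ∀ (l : ℕ) [Fact l.Prime], L < l → q ∈ OO l := by
  by_cases hq : q = 0
  · exact ⟨0, fun l _ _ => by rw [hq]; exact zero_mem _⟩
  · obtain ⟨L, hL⟩ := pv_large hq
    exact ⟨L, fun l _ hl => (hL l hl).le⟩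

theorem coeff_large (f : Polynomial ℚ) :
    ∃ L : ℕ, ∀ (l : ℕ) [Fact l.Prime], L < l → ∀ i, f.coeff i ∈ OO l := by
  choose L hL using mem_large
  refine ⟨∑ i ∈ f.support, L (f.coeff i), fun l _ hl i => ?_⟩
  by_cases hi : i ∈ f.support
  · apply hL (f.coeff i) l
    exact lt_of_le_of_lt (Finset.single_le_sum (f := fun i => L (f.coeff i))
      (fun _ _ => Nat.zero_le _) hi) hl
  · rw [Polynomial.notMem_support_iff.1 hi]; exact zero_mem _

/-! ### Congruence of the values of a polynomial -/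

theorem pv_sum_lt {ι : Type*} {l : ℕ} [Fact l.Prime] (s : Finset ι) (g : ι → ℚ)
    (h : ∀ i ∈ s, pv l (g i) < 1) : pv l (∑ i ∈ s, g i) < 1 := by
  classical
  induction s using Finset.induction_on with
  | empty => rw [Finset.sum_empty, pv_zero]; norm_num
  | insert a s ha ih =>
    rw [Finset.sum_insert ha]
    exact pv_add_lt l (h a (Finset.mem_insert_self a s))
      (ih (fun i hi => h i (Finset.mem_insert_of_mem hi)))

theorem eval_mem {l : ℕ} [Fact l.Prime] {f : Polynomial ℚ} (hf : ∀ i, f.coeff i ∈ OO l) {x : ℚ}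
    (hx : x ∈ OO l) : f.eval x ∈ OO l := by
  rw [Polynomial.eval_eq_sum_range]
  exact sum_mem (fun i _ => mul_mem (hf i) (pow_mem hx i))

theorem eval_congr {l : ℕ} [Fact l.Prime] {f : Polynomial ℚ} (hf : ∀ i, f.coeff i ∈ OO l)
    {x x0 : ℚ} (hx : x ∈ OO l) (hx0 : x0 ∈ OO l) (h : pv l (x - x0) < 1) :
    pv l (f.eval x - f.eval x0) < 1 := by
  rw [Polynomial.eval_eq_sum_range, Polynomial.eval_eq_sum_range, ← Finset.sum_sub_distrib]
  apply pv_sum_lt
  intro i _
  have h1 : f.coeff i * x ^ i - f.coeff i * x0 ^ i =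
      (x - x0) * (f.coeff i * ∑ j ∈ Finset.range i, x ^ j * x0 ^ (i - 1 - j)) := by
    have := (Commute.all x x0).geom_sum₂_mul i
    rw [← mul_sub, ← this]; ring
  rw [h1]
  exact pv_mul_lt l h (mul_mem (hf i) (sum_mem (fun j _ => mul_mem (pow_mem hx _)
    (pow_mem hx0 _))))

/-! ### Signs along the orbit -/

section egg

variable {α β : ℚ}

theorem some_eq_or_neg {A B C : ℚ} {x y y' : ℚ} (h : (Wc A B C).Nonsingular x y)
    (h' : (Wc A B C).Nonsingular x y') :
    (Point.some x y h : (Wc A B C).Point) = Point.some x y' h' ∨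
      (Point.some x y h : (Wc A B C).Point) = -Point.some x y' h' := by
  have e := eqn_iff.1 h.1
  have e' := eqn_iff.1 h'.1
  have h2 : (y - y') * (y + y') = 0 := by linear_combination e - e'
  rcases mul_eq_zero.1 h2 with h3 | h3
  · left
    have : y = y' := sub_eq_zero.1 h3
    subst this; rfl
  · right
    rw [Point.neg_some]
    have : y = (Wc A B C).negY x y' := by rw [negY_eq]; linear_combination h3
    subst this; rfl

/-- Pairwise distinct `x`-coordinates along an arithmetic progression of odd multiples. -/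
theorem x_inj {A B C : ℚ} {P : (Wc A B C).Point} (hinf : ∀ k : ℕ, 0 < k → k • P ≠ 0) {m n : ℕ}
    {x y y' : ℚ} {h : (Wc A B C).Nonsingular x y} {h' : (Wc A B C).Nonsingular x y'}
    (hm : (2 * m + 1) • P = Point.some x y h) (hn : (2 * n + 1) • P = Point.some x y' h') :
    m = n := by
  by_contra hne
  wlog hlt : m < n generalizing m n y y'
  · exact this hn hm (Ne.symm hne) (lt_of_le_of_ne (not_lt.1 hlt) (Ne.symm hne))
  rcases some_eq_or_neg h h' with h1 | h1
  · rw [← hm, ← hn] at h1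
    apply hinf (2 * n - 2 * m) (by omega)
    have h2 : (2 * n + 1) • P = (2 * n - 2 * m) • P + (2 * m + 1) • P := by
      rw [← add_nsmul]; congr 1; omega
    rw [← h1] at h2
    have h3 : (0 : (Wc A B C).Point) + (2 * m + 1) • P = (2 * n - 2 * m) • P + (2 * m + 1) • P := by
      rw [zero_add]; exact h2
    exact (add_right_cancel h3).symm
  · rw [← hm, ← hn] at h1
    apply hinf ((2 * m + 1) + (2 * n + 1)) (by omega)
    rw [add_nsmul, h1]
    exact neg_add_cancel _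

theorem dval_sign {A B : ℚ} (hB : B ≠ 0) (P Q : (Wc A B 0).Point) :
    0 < dval 0 (P + Q) * (dval 0 P * dval 0 Q) := by
  obtain ⟨r, hr⟩ := dval_mul (e := (0 : ℚ)) (A := A) (B := B) (C := 0) (by ring) P Q
  have hne : ∀ R : (Wc A B 0).Point, dval 0 R ≠ 0 := fun R =>
    dval_ne_zero (by simpa using hB) R
  have h0 : dval 0 (P + Q) * (dval 0 P * dval 0 Q) ≠ 0 :=
    mul_ne_zero (hne _) (mul_ne_zero (hne _) (hne _))
  rw [hr] at h0 ⊢
  have : 0 ≤ r * r := mul_self_nonneg r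
  exact lt_of_le_of_ne this (Ne.symm h0)

theorem dval_even {A B : ℚ} (hB : B ≠ 0) (P : (Wc A B 0).Point) (n : ℕ) :
    0 < dval 0 ((2 * n) • P) := by
  induction n with
  | zero => rw [mul_zero, zero_nsmul, dval_zero]; norm_num
  | succ n ih =>
    have h1 : (2 * (n + 1)) • P = (2 * n) • P + (P + P) := by
      rw [← two_nsmul, ← add_nsmul]; congr 1
    have h2 := dval_sign hB P P
    have h3 := dval_sign hB ((2 * n) • P) (P + P)
    have h4 : 0 < dval 0 (P + P) := (pos_iff_pos_of_mul_pos h2).2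
      (mul_self_pos.2 (dval_ne_zero (by simpa using hB) P))
    rw [h1]
    exact (pos_iff_pos_of_mul_pos h3).2 (mul_pos ih h4)

theorem odd_neg {A B : ℚ} (hB : B < 0) {x0 y0 : ℚ} (h0 : (Wc A B 0).Nonsingular x0 y0)
    (hx0 : x0 < 0)
    (hinf : ∀ k : ℕ, 0 < k → k • (Point.some x0 y0 h0 : (Wc A B 0).Point) ≠ 0) (k : ℕ)
    {x y : ℚ} {h : (Wc A B 0).Nonsingular x y}
    (hk : (2 * k + 1) • (Point.some x0 y0 h0 : (Wc A B 0).Point) = Point.some x y h) : x < 0 := by
  set P : (Wc A B 0).Point := Point.some x0 y0 h0 with hP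
  have hd0 : dval 0 P < 0 := by
    rw [hP, dval_some, if_neg hx0.ne, sub_zero]; exact hx0
  have h1 := dval_even hB.ne P k
  have h2 := dval_sign hB.ne ((2 * k) • P) P
  have h3 : dval 0 ((2 * k) • P + P) < 0 := by
    have h4 : dval 0 ((2 * k) • P) * dval 0 P < 0 := mul_neg_of_pos_of_neg h1 hd0
    exact (neg_iff_neg_of_mul_pos h2).2 h4
  rw [← succ_nsmul, hk, dval_some] at h3
  by_cases hx : x = 0
  · exfalso
    have hy : y = 0 := by
      have e := eqn_iff.1 h.1
      rw [hx] at e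
      have : y ^ 2 = 0 := by rw [e]; ring
      exact pow_eq_zero_iff two_ne_zero |>.1 this
    apply hinf ((2 * k + 1) + (2 * k + 1)) (by omega)
    rw [add_nsmul, hk]
    exact Point.add_of_Y_eq rfl (by rw [negY_eq, hy, neg_zero])
  · rw [if_neg hx, sub_zero] at h3
    exact h3

/-- A point with negative `x` lies on the egg. -/
theorem egg_ge (hα : 0 < α) {x y : ℚ} (hx : x < 0)
    (e : y ^ 2 = x ^ 3 + (β - α) * x ^ 2 + -(α * β) * x + 0) : -β ≤ x := by
  by_contra hlt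
  push Not at hlt
  have h1 : 0 < x * (x - α) := mul_pos_of_neg_of_neg hx (by linarith)
  have h2 : x * (x - α) * (x + β) < 0 := mul_neg_of_pos_of_neg h1 (by linarith)
  have h3 : y ^ 2 = x * (x - α) * (x + β) := by rw [e]; ring
  nlinarith [sq_nonneg y]

end egg

/-! ### The engine -/

theorem engine_of {α β δ : ℚ} (hα : 0 < α) (hβ : 0 < β) {x0 y0 : ℚ}
    (HL : ∀ P Q : (Wc (β - α) (-(α * β)) 0).Point, (∀ k : ℕ, 0 < k → k • Q ≠ 0) →
      (∀ k : ℕ, ∃ (x y : ℚ) (h : (Wc (β - α) (-(α * β)) 0).Nonsingular x y),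
        P + k • Q = Point.some x y h ∧ x < -δ) → False)
    (HR : ∀ P Q : (Wc (β - α) (-(α * β)) 0).Point, (∀ k : ℕ, 0 < k → k • Q ≠ 0) →
      (∀ k : ℕ, ∃ (x y : ℚ) (h : (Wc (β - α) (-(α * β)) 0).Nonsingular x y),
        P + k • Q = Point.some x y h ∧ -δ < x ∧ x < 0) → False)
    (h0 : (Wc (β - α) (-(α * β)) 0).Nonsingular x0 y0) (hx0 : x0 < 0)
    (hinf : ∀ k : ℕ, 0 < k → k • (Point.some x0 y0 h0 : (Wc (β - α) (-(α * β)) 0).Point) ≠ 0)
    (f : Polynomial ℚ) (hf0 : f.eval x0 ≠ 0) (hfδ : f.eval (-δ) = 0)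
    (hpos : ∀ x : ℚ, -β ≤ x → x < -δ → 0 < f.eval x)
    (hneg : ∀ x : ℚ, -δ < x → x < 0 → f.eval x < 0)
    (S : Set ℤ) (F : Set ℚ) (hF : F.Finite)
    (hS : ∀ (k : ℕ) (x y : ℚ) (h : (Wc (β - α) (-(α * β)) 0).Nonsingular x y),
      (2 * k + 1) • (Point.some x0 y0 h0 : (Wc (β - α) (-(α * β)) 0).Point) = Point.some x y h →
      x ∉ F → ∃ N ∈ S, ∃ t : ℚ, t ≠ 0 ∧ N ≠ 0 ∧ f.eval x = N * t ^ 2) :
    S.Infinite := by
  intro hfin
  set P0 : (Wc (β - α) (-(α * β)) 0).Point := Point.some x0 y0 h0 with hP0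
  set G := (hfin.toFinset.filter (· ≠ 0)).image Int.natAbs with hG
  set M := ∏ N ∈ G, N with hM
  have hGpos : ∀ N ∈ G, 0 < N := by
    intro N hN
    rw [hG, Finset.mem_image] at hN
    obtain ⟨z, hz, rfl⟩ := hN
    exact Int.natAbs_pos.2 (Finset.mem_filter.1 hz).2
  have hGmem : ∀ N ∈ S, N ≠ 0 → N.natAbs ∈ G := by
    intro N hN h0
    rw [hG]
    exact Finset.mem_image_of_mem _ (Finset.mem_filter.2 ⟨hfin.mem_toFinset.2 hN, h0⟩)
  have hMpos : 0 < M := Finset.prod_pos hGpos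
  -- the constants
  obtain ⟨L1, hL1⟩ := mem_large α
  obtain ⟨L2, hL2⟩ := mem_large β
  obtain ⟨L3, hL3⟩ := mem_large x0
  obtain ⟨L4, hL4⟩ := coeff_large f
  obtain ⟨L5, hL5⟩ := pv_large hf0
  obtain ⟨L6, hL6⟩ := pv_large (q := 2) two_ne_zero
  have hdisc : (-(α * β)) ^ 2 * ((β - α) ^ 2 - 4 * (-(α * β))) ≠ 0 := by
    have h1 : (β - α) ^ 2 - 4 * (-(α * β)) = (α + β) ^ 2 := by ring
    rw [h1]
    have h2 : 0 < α * β := mul_pos hα hβ
    have h3 : 0 < α + β := add_pos hα hβ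
    exact mul_ne_zero (pow_ne_zero 2 (neg_ne_zero.2 h2.ne')) (pow_ne_zero 2 h3.ne')
  obtain ⟨L7, hL7⟩ := pv_large hdisc
  -- the prime
  obtain ⟨l, hlgt, hlp, hlmod⟩ := Nat.forall_exists_prime_gt_and_modEq
    (M + (L1 + L2 + L3 + L4 + L5 + L6 + L7)) (q := 4 * M) (a := 4 * M - 1) (by omega) (by
      have h1 : 4 * M = (4 * M - 1) + 1 := by omega
      have h2 : (4 * M - 1).Coprime ((4 * M - 1) + 1) :=
        Nat.coprime_self_add_right.2 (Nat.coprime_one_right _)
      rwa [← h1] at h2)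
  have hldvd : 4 * M ∣ l + 1 := by
    have h1 : l + 1 ≡ (4 * M - 1) + 1 [MOD 4 * M] := hlmod.add_right 1
    have h2 : (4 * M - 1) + 1 = 4 * M := by omega
    rw [h2] at h1
    exact (Nat.modEq_zero_iff_dvd.1 (h1.trans (by simp [Nat.ModEq])))
  have hfact : Fact l.Prime := ⟨hlp⟩
  have hl3 : l % 4 = 3 := by
    obtain ⟨k, hk⟩ := hldvd
    have : 4 * M * k = 4 * (M * k) := by ring
    omega
  have hnsq : ¬ IsSquare (-1 : ZMod l) := by
    rw [ZMod.exists_sq_eq_neg_one_iff]; omega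
  have mα : α ∈ OO l := hL1 l (by omega)
  have mβ : β ∈ OO l := hL2 l (by omega)
  have mx0 : x0 ∈ OO l := hL3 l (by omega)
  have mf : ∀ i, f.coeff i ∈ OO l := hL4 l (by omega)
  have uf : pv l (f.eval x0) = 1 := hL5 l (by omega)
  have u2 : pv l 2 = 1 := hL6 l (by omega)
  have ud := hL7 l (by omega)
  have mA : β - α ∈ OO l := sub_mem mβ mα
  have mB : -(α * β) ∈ OO l := neg_mem (mul_mem mα mβ)
  have mC : (0 : ℚ) ∈ OO l := zero_mem _
  have hsq : ∀ N ∈ G, ∃ c : ZMod l, c ≠ 0 ∧ (N : ZMod l) = c * c := by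
    intro N hN
    have h1 : J(N | l) = 1 := jac_one (hGpos N hN)
      (mod_neg_one (hGpos N hN) (Finset.dvd_prod_of_mem _ hN) hldvd)
    obtain ⟨c, hc⟩ := ZMod.isSquare_of_jacobiSym_eq_one h1
    rw [Int.cast_natCast] at hc
    refine ⟨c, ?_, hc⟩
    rintro rfl
    have hNM : N ≤ M := Nat.le_of_dvd hMpos (Finset.dvd_prod_of_mem _ hN)
    exact natCast_ne_zero_of_lt (p := l) (hGpos N hN) (by omega) (by rw [hc]; ring)
  set w : ZMod l := rd l ⟨f.eval x0, eval_mem mf mx0⟩ with hw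
  have hw0 : w ≠ 0 := by
    intro h
    rw [hw, rd_eq_zero] at h
    change pv l (f.eval x0) < 1 at h
    rw [uf] at h
    exact absurd h (lt_irrefl _)
  -- local squares
  have key : ∀ x : ℚ, pv l (x - x0) < 1 → (∃ N ∈ S, ∃ t : ℚ, t ≠ 0 ∧ N ≠ 0 ∧
      f.eval x = N * t ^ 2) → (0 < f.eval x ∧ IsSquare w) ∨ (f.eval x < 0 ∧ IsSquare (-w)) := by
    rintro x hx ⟨N, hNS, t, ht, hN0, hNt⟩
    have mx : x ∈ OO l := by
      have : x = (x - x0) + x0 := by ring
      rw [this]; exact add_mem (le_of_lt hx : pv l (x - x0) ≤ 1) mx0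
    have hcong := eval_congr mf mx mx0 hx
    have hrd : rd l ⟨f.eval x, eval_mem mf mx⟩ = w := (rd_eq_iff _ _).2 hcong
    have hNG := hGmem N hNS hN0
    have hNM : N.natAbs ≤ M := Nat.le_of_dvd hMpos (Finset.dvd_prod_of_mem _ hNG)
    have hNpos := hGpos _ hNG
    have hpN' : pv l ((N.natAbs : ℕ) : ℚ) = 1 :=
      pv_nat_one (fun h => absurd (Nat.le_of_dvd hNpos h) (by omega))
    have hpN : pv l (N : ℚ) = 1 := by
      rcases Int.natAbs_eq N with h | h
      · rw [h, Int.cast_natCast]; exact hpN'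
      · rw [h, Int.cast_neg, Int.cast_natCast, pv_neg]; exact hpN'
    have hpf : pv l (f.eval x) = 1 := by
      have : f.eval x = f.eval x0 + (f.eval x - f.eval x0) := by ring
      rw [this, pv_add_eq, uf]
      rw [uf]; exact hcong
    have hpt : pv l t = 1 := by
      rw [hNt, pv_mul, hpN, one_mul, pv_pow] at hpf
      exact (pow_eq_one_iff_of_nonneg (pv_nonneg l t) two_ne_zero).1 hpf
    have htO : t ∈ OO l := hpt.le
    obtain ⟨c, hc, hcN⟩ := hsq _ hNG
    have ht2 : 0 < t ^ 2 := by positivity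
    have hNrd : rd l (N.natAbs : OO l) = (N.natAbs : ZMod l) := map_natCast (rd l) _
    rcases lt_or_gt_of_ne hN0 with hneg' | hpos'
    · right
      have hNabs : (N : ℚ) = -((N.natAbs : ℕ) : ℚ) := by
        have h1 : N = -((N.natAbs : ℕ) : ℤ) := by omega
        have h2 : ((N : ℤ) : ℚ) = ((-((N.natAbs : ℕ) : ℤ) : ℤ) : ℚ) := congrArg _ h1
        rw [Int.cast_neg, Int.cast_natCast] at h2
        exact h2
      have hNq : (N : ℚ) < 0 := by exact_mod_cast hneg'
      refine ⟨by rw [hNt]; exact mul_neg_of_neg_of_pos hNq ht2, c * rd l ⟨t, htO⟩, ?_⟩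
      have h1 : (⟨f.eval x, eval_mem mf mx⟩ : OO l) = -((N.natAbs : OO l) * ⟨t, htO⟩ ^ 2) :=
        Subtype.ext (by
          have : ((-((N.natAbs : OO l) * ⟨t, htO⟩ ^ 2) : OO l) : ℚ) =
            -(((N.natAbs : ℕ) : ℚ) * t ^ 2) := rfl
          rw [this]
          change f.eval x = _
          rw [hNt, hNabs]; ring)
      rw [← hrd, h1, map_neg, map_mul, map_pow, hNrd, hcN]; ring
    · left
      have hNabs : (N : ℚ) = ((N.natAbs : ℕ) : ℚ) := by
        have h1 : N = ((N.natAbs : ℕ) : ℤ) := by omega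
        have h2 : ((N : ℤ) : ℚ) = ((((N.natAbs : ℕ) : ℤ) : ℤ) : ℚ) := congrArg _ h1
        rw [Int.cast_natCast] at h2
        exact h2
      have hNq : 0 < (N : ℚ) := by exact_mod_cast hpos'
      refine ⟨by rw [hNt]; exact mul_pos hNq ht2, c * rd l ⟨t, htO⟩, ?_⟩
      have h1 : (⟨f.eval x, eval_mem mf mx⟩ : OO l) = (N.natAbs : OO l) * ⟨t, htO⟩ ^ 2 :=
        Subtype.ext (by
          have : (((N.natAbs : OO l) * ⟨t, htO⟩ ^ 2 : OO l) : ℚ) =
            ((N.natAbs : ℕ) : ℚ) * t ^ 2 := rfl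
          rw [this]
          change f.eval x = _
          rw [hNt, hNabs]
          )
      rw [← hrd, h1, map_mul, map_pow, hNrd, hcN]; ring
  -- the kernel element
  obtain ⟨r, hr, hker⟩ := exists_ker mA mB mC u2 (noSing_of mA mB ud) P0
  have hall : ∀ k : ℕ, ∃ (x y : ℚ) (h : (Wc (β - α) (-(α * β)) 0).Nonsingular x y),
      (2 * (r * k) + 1) • P0 = Point.some x y h ∧ pv l (x - x0) < 1 := by
    intro k
    obtain ⟨x, y, h, hP, hx⟩ := add_ker_mul mA mB mC hP0 mx0 hker (2 * k)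
    refine ⟨x, y, h, ?_, hx⟩
    rw [← hP, ← mul_nsmul, add_nsmul, one_nsmul, add_comm]
    congr 2; ring
  choose x y h hxk hcon using hall
  have hxneg : ∀ k, x k < 0 := fun k =>
    odd_neg (by have := mul_pos hα hβ; linarith) h0 hx0 hinf _ (hxk k)
  have hxge : ∀ k, -β ≤ x k := fun k => egg_ge hα (hxneg k) (eqn_iff.1 (h k).1)
  have hinj : Function.Injective x := by
    intro i j hij
    have hj := hxk j
    have hn : (Wc (β - α) (-(α * β)) 0).Nonsingular (x i) (y j) := by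
      rw [hij]; exact h j
    have h1 : (Point.some (x j) (y j) (h j) : (Wc (β - α) (-(α * β)) 0).Point) =
        Point.some (x i) (y j) hn := by
      congr 1; exact hij.symm
    rw [h1] at hj
    have h2 := x_inj hinf (hxk i) hj
    exact Nat.eq_of_mul_eq_mul_left hr h2
  obtain ⟨K, hK⟩ : ∃ K : ℕ, ∀ k, K ≤ k → x k ∉ F := by
    have h1 : (x ⁻¹' F).Finite := hF.preimage hinj.injOn
    obtain ⟨K, hK⟩ := h1.bddAbove
    refine ⟨K + 1, fun k hk hmem => ?_⟩
    have := hK hmem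
    omega
  have hkey : ∀ k, K ≤ k → (0 < f.eval (x k) ∧ IsSquare w) ∨ (f.eval (x k) < 0 ∧ IsSquare (-w)) :=
    fun k hk => key (x k) (hcon k) (hS _ _ _ (h k) (hxk k) (hK k hk))
  have hnot : ¬ (IsSquare w ∧ IsSquare (-w)) := by
    rintro ⟨⟨a, ha⟩, ⟨b, hb⟩⟩
    apply hnsq
    have ha0 : a ≠ 0 := by rintro rfl; apply hw0; rw [ha]; ring
    refine ⟨b / a, ?_⟩
    have h1 : a * a + b * b = 0 := by rw [← ha, ← hb]; ring
    field_simp
    linear_combination -h1
  have hQinf : ∀ k : ℕ, 0 < k → k • ((2 * r) • P0) ≠ 0 := by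
    intro k hk
    rw [← mul_nsmul']
    exact hinf _ (by positivity)
  have hsum : ∀ k : ℕ, (2 * (r * K) + 1) • P0 + k • ((2 * r) • P0) =
      Point.some (x (K + k)) (y (K + k)) (h (K + k)) := by
    intro k
    rw [← hxk, ← mul_nsmul', ← add_nsmul]
    congr 1; ring
  by_cases hsw : IsSquare w
  · apply HL ((2 * (r * K) + 1) • P0) ((2 * r) • P0) hQinf
    intro k
    refine ⟨_, _, _, hsum k, ?_⟩
    rcases hkey (K + k) (by omega) with h1 | h1
    · by_contra hge
      push Not at hge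
      rcases eq_or_lt_of_le hge with h2 | h2
      · rw [← h2, hfδ] at h1; exact lt_irrefl _ h1.1
      · exact absurd (hneg _ h2 (hxneg _)) (not_lt.2 h1.1.le)
    · exact absurd ⟨hsw, h1.2⟩ hnot
  · apply HR ((2 * (r * K) + 1) • P0) ((2 * r) • P0) hQinf
    intro k
    refine ⟨_, _, _, hsum k, ?_, hxneg _⟩
    rcases hkey (K + k) (by omega) with h1 | h1
    · exact absurd h1.2 hsw
    · by_contra hge
      push Not at hge
      rcases eq_or_lt_of_le hge with h2 | h2
      · rw [h2, hfδ] at h1; exact lt_irrefl _ h1.1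
      · exact absurd (hpos _ (hxge _) h2) (not_lt.2 h1.1.le)

end H17.Tw
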