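import Pool.Agent.H48.CN.Padic
import Pool.Agent.H48.CN.Descent

/-!
# Reduction modulo `p` of the multiples of a point on `Y^2 = X^3 + A X^2 + B X + C`

The coefficients are `p`-integral; the discriminant condition is the hypothesis `NoSing`: the cubic
and its derivative have no common zero modulo `p`. Adapted from `H48.CN.Padic`.
-/

namespace H17.Tw

open WeierstrassCurve WeierstrassCurve.Affine H48.CN

variable {p : ℕ} [hp : Fact p.Prime] {A B C : ℚ}

/-- The cubic is `p`-integral. -/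
theorem cubic_mem (hA : A ∈ OO p) (hB : B ∈ OO p) (hC : C ∈ OO p) {x : ℚ} (hx : x ∈ OO p) :
    x ^ 3 + A * x ^ 2 + B * x + C ∈ OO p :=
  add_mem (add_mem (add_mem (pow_mem hx 3) (mul_mem hA (pow_mem hx 2))) (mul_mem hB hx)) hC

theorem y_mem (hA : A ∈ OO p) (hB : B ∈ OO p) (hC : C ∈ OO p) {x y : ℚ}
    (e : y ^ 2 = x ^ 3 + A * x ^ 2 + B * x + C) (hx : x ∈ OO p) : y ∈ OO p := by
  have h : pv p y ^ 2 ≤ 1 := by
    rw [← pv_pow, e]; exact cubic_mem hA hB hC hx
  rw [mem_OO]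
  exact (pow_le_one_iff_of_nonneg (pv_nonneg p y) two_ne_zero).1 h

theorem Y_large (hA : A ∈ OO p) (hB : B ∈ OO p) (hC : C ∈ OO p) {X Y : ℚ}
    (e : Y ^ 2 = X ^ 3 + A * X ^ 2 + B * X + C) (hX : 1 < pv p X) :
    pv p Y ^ 2 = pv p X ^ 3 := by
  rw [← pv_pow, ← pv_pow, e]
  have h1 : X ^ 3 + A * X ^ 2 + B * X + C = X ^ 3 + (A * X ^ 2 + (B * X + C)) := by ring
  rw [h1]
  apply pv_add_eq
  have h2 : pv p X ^ 2 < pv p X ^ 3 := pow_lt_pow_right₀ hX (by norm_num)
  rw [pv_pow]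
  refine lt_of_le_of_lt ?_ h2
  have hXX : pv p X ≤ pv p X ^ 2 := by nlinarith
  rw [mem_OO] at hA hB hC
  apply pv_add_le'
  · rw [pv_mul, pv_pow]
    calc pv p A * pv p X ^ 2 ≤ 1 * pv p X ^ 2 :=
          mul_le_mul_of_nonneg_right hA (sq_nonneg _)
      _ = pv p X ^ 2 := one_mul _
  · apply pv_add_le'
    · rw [pv_mul]
      calc pv p B * pv p X ≤ 1 * pv p X := mul_le_mul_of_nonneg_right hB (pv_nonneg p X)
        _ ≤ pv p X ^ 2 := by rw [one_mul]; exact hXX
    · nlinarith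

/-- Adding a point of the kernel of reduction does not change the reduction. -/
theorem red_add (hA : A ∈ OO p) (hB : B ∈ OO p) (hC : C ∈ OO p) {x y X Y l x' : ℚ}
    (e1 : y ^ 2 = x ^ 3 + A * x ^ 2 + B * x + C)
    (e2 : Y ^ 2 = X ^ 3 + A * X ^ 2 + B * X + C) (r1 : l * (x - X) = y - Y)
    (r3 : x' = l ^ 2 - A - x - X) (hx : x ∈ OO p) (hX : 1 < pv p X) : pv p (x' - x) < 1 := by
  have hy := y_mem hA hB hC e1 hx
  have hY := Y_large hA hB hC e2 hX
  have q2 : (x' - x) * (x - X) ^ 2 =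
      (3 * x ^ 2 + 2 * A * x + B) * X + ((-(2 * y)) * Y + (C + y ^ 2 - (A + 2 * x) * x ^ 2)) := by
    rw [r3]
    linear_combination (l * (x - X) + (y - Y)) * r1 + e2
  have hxX : pv p (x - X) = pv p X := by
    have : x - X = -X + x := by ring
    rw [this, pv_add_eq, pv_neg]
    rw [pv_neg]; exact lt_of_le_of_lt hx hX
  set a := pv p X with ha
  set b := pv p Y with hb
  have hb0 : 0 ≤ b := pv_nonneg p Y
  have ha1 : 1 < a := hX
  have hab : a ≤ b := by
    by_contra h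
    push Not at h
    have h1 : b ^ 2 < a ^ 2 := pow_lt_pow_left₀ h hb0 two_ne_zero
    rw [hY] at h1
    have h2 : a ^ 2 ≤ a ^ 3 := pow_le_pow_right₀ ha1.le (by norm_num)
    linarith
  have hba : b < a ^ 2 := by
    by_contra h
    push Not at h
    have h1 : (a ^ 2) ^ 2 ≤ b ^ 2 := pow_le_pow_left₀ (by positivity) h 2
    rw [hY] at h1
    have h2 : a ^ 3 < a ^ 4 := pow_lt_pow_right₀ ha1 (by norm_num)
    nlinarith
  have h2 : (2 : ℚ) ∈ OO p := ofNat_mem_OO p 2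
  have h3 : (3 : ℚ) ∈ OO p := ofNat_mem_OO p 3
  have hbound : pv p ((x' - x) * (x - X) ^ 2) ≤ b := by
    rw [q2]
    apply pv_add_le'
    · rw [pv_mul]
      have h1 : pv p (3 * x ^ 2 + 2 * A * x + B) ≤ 1 :=
        add_mem (add_mem (mul_mem h3 (pow_mem hx 2)) (mul_mem (mul_mem h2 hA) hx)) hB
      calc _ ≤ 1 * a := mul_le_mul_of_nonneg_right h1 (by linarith)
        _ ≤ b := by rw [one_mul]; exact hab
    · apply pv_add_le'
      · rw [pv_mul]
        have h1 : pv p (-(2 * y)) ≤ 1 := neg_mem (mul_mem h2 hy)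
        calc _ ≤ 1 * b := mul_le_mul_of_nonneg_right h1 hb0
          _ = b := one_mul _
      · have h1 : pv p (C + y ^ 2 - (A + 2 * x) * x ^ 2) ≤ 1 :=
          sub_mem (add_mem hC (pow_mem hy 2)) (mul_mem (add_mem hA (mul_mem h2 hx)) (pow_mem hx 2))
        linarith
  rw [pv_mul, pv_pow, hxX] at hbound
  by_contra h
  push Not at h
  have h1 : a ^ 2 ≤ pv p (x' - x) * a ^ 2 := by
    have : 0 ≤ a ^ 2 := sq_nonneg a
    nlinarith
  linarith

/-- The cubic and its derivative have no common zero modulo `p`. -/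
def NoSing (p : ℕ) [Fact p.Prime] (A B C : ℚ) : Prop :=
  ∀ x ∈ OO p, pv p (x ^ 3 + A * x ^ 2 + B * x + C) < 1 →
    pv p (3 * x ^ 2 + 2 * A * x + B) < 1 → False

theorem noSing_of (hA : A ∈ OO p) (hB : B ∈ OO p) (hd : pv p (B ^ 2 * (A ^ 2 - 4 * B)) = 1) :
    NoSing p A B 0 := by
  intro x hx h1 h2
  have m2 : (2 : ℚ) ∈ OO p := ofNat_mem_OO p 2
  have m4 : (4 : ℚ) ∈ OO p := ofNat_mem_OO p 4
  have hg : x ^ 2 + A * x + B ∈ OO p := add_mem (add_mem (pow_mem hx 2) (mul_mem hA hx)) hB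
  have hg' : 2 * x + A ∈ OO p := add_mem (mul_mem m2 hx) hA
  have hxA : x + A ∈ OO p := add_mem hx hA
  have key : B ^ 2 * (A ^ 2 - 4 * B) =
      (x ^ 3 + A * x ^ 2 + B * x + 0) *
        ((2 * x + A) * (-(2 * x + A) ^ 2 - 2 * (2 * x + A) * (x + A) - (x + A) ^ 2) -
          4 * (-(x ^ 2 + A * x + B) * (2 * x + A) - 2 * (x + A) * (x ^ 2 + A * x + B) +
            x * (x + A) ^ 2)) +
      (3 * x ^ 2 + 2 * A * x + B) *
        ((2 * x + A) * ((2 * x + A) * (x ^ 2 + A * x + B) + (x + A) ^ 2 * x) -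
          4 * (x ^ 2 + A * x + B) ^ 2) := by ring
  have : pv p (B ^ 2 * (A ^ 2 - 4 * B)) < 1 := by
    rw [key]
    apply pv_add_lt
    · apply pv_mul_lt p h1
      apply sub_mem
      · exact mul_mem hg' (sub_mem (sub_mem (neg_mem (pow_mem hg' 2))
          (mul_mem (mul_mem m2 hg') hxA)) (pow_mem hxA 2))
      · exact mul_mem m4 (add_mem (sub_mem (mul_mem (neg_mem hg) hg')
          (mul_mem (mul_mem m2 hxA) hg)) (mul_mem hx (pow_mem hxA 2)))
    · apply pv_mul_lt p h2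
      exact sub_mem (mul_mem hg' (add_mem (mul_mem hg' hg) (mul_mem (pow_mem hxA 2) hx)))
        (mul_mem m4 (pow_mem hg 2))
  linarith

/-- The difference of two congruent points is in the kernel of reduction. -/
theorem red_sub (hA : A ∈ OO p) (hB : B ∈ OO p) (hC : C ∈ OO p) (hp2 : pv p 2 = 1)
    (hbad : NoSing p A B C) {x y x₂ y₂ l x' : ℚ} (e1 : y ^ 2 = x ^ 3 + A * x ^ 2 + B * x + C)
    (r1 : l * (x - x₂) = y + y₂)
    (r2 : l * (y - y₂) = x ^ 2 + x * x₂ + x₂ ^ 2 + A * (x + x₂) + B)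
    (r3 : x' = l ^ 2 - A - x - x₂) (hx : x ∈ OO p) (hx2 : x₂ ∈ OO p)
    (h : pv p (x - x₂) < 1) (h' : pv p (y - y₂) < 1) :
    1 < pv p x' := by
  have hy := y_mem hA hB hC e1 hx
  have m2 : (2 : ℚ) ∈ OO p := ofNat_mem_OO p 2
  have hl : 1 < pv p l := by
    by_contra hl
    push Not at hl
    have a1 : pv p (y + y₂) < 1 := by
      rw [← r1, mul_comm]; exact pv_mul_lt p h hl
    have a2 : pv p (2 * y) < 1 := by
      have : 2 * y = (y + y₂) + (y - y₂) := by ring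
      rw [this]; exact pv_add_lt p a1 h'
    have a3 : pv p y < 1 := by
      rw [pv_mul, hp2, one_mul] at a2; exact a2
    have a4 : pv p (x ^ 3 + A * x ^ 2 + B * x + C) < 1 := by
      rw [← e1, sq]; exact pv_mul_lt p a3 hy
    have a5 : pv p (3 * x ^ 2 + 2 * A * x + B) < 1 := by
      have : 3 * x ^ 2 + 2 * A * x + B = (y - y₂) * l + (x - x₂) * (2 * x + x₂ + A) := by
        linear_combination -r2
      rw [this]
      exact pv_add_lt p (pv_mul_lt p h' hl) (pv_mul_lt p h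
        (add_mem (add_mem (mul_mem m2 hx) hx2) hA))
    exact hbad x hx a4 a5
  have hl2 : 1 < pv p (l ^ 2) := by
    rw [pv_pow]; exact one_lt_pow₀ hl two_ne_zero
  have h3 : x' = l ^ 2 + (-(A + x + x₂)) := by rw [r3]; ring
  rw [h3, pv_add_eq]
  · exact hl2
  · refine lt_of_le_of_lt ?_ hl2
    exact neg_mem (add_mem (add_mem hA hx) hx2)

/-- The kernel of reduction (including the point at infinity). -/
def Ker (p : ℕ) [Fact p.Prime] (P : (Wc A B C).Point) : Prop :=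
  ∀ (x y : ℚ) (h : (Wc A B C).Nonsingular x y), P = Point.some x y h → 1 < pv p x

theorem add_ker (hA : A ∈ OO p) (hB : B ∈ OO p) (hC : C ∈ OO p) {P Q : (Wc A B C).Point}
    {x y : ℚ} {h : (Wc A B C).Nonsingular x y} (hP : P = Point.some x y h)
    (hx : x ∈ OO p) (hQ : Ker p Q) :
    ∃ (x' y' : ℚ) (h' : (Wc A B C).Nonsingular x' y'), P + Q = Point.some x' y' h' ∧
      pv p (x' - x) < 1 := by
  rcases hQc : Q with _ | ⟨X, Y, hXY⟩
  · refine ⟨x, y, h, ?_, ?_⟩
    · change P + 0 = _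
      rw [add_zero, hP]
    · rw [sub_self, pv_zero]; norm_num
  · have hX := hQ X Y hXY hQc
    have hne : ¬(x = X ∧ y = -Y) := by
      rintro ⟨h1, -⟩
      rw [h1, mem_OO] at hx; linarith
    obtain ⟨l, x', y', h', hs, s1, -, s3, -⟩ := add_rel h hXY hne
    refine ⟨x', y', h', ?_, ?_⟩
    · rw [hP]; exact hs
    · exact red_add hA hB hC (eqn_iff.1 h.1) (eqn_iff.1 hXY.1) s1 s3 hx hX

theorem add_ker_mul (hA : A ∈ OO p) (hB : B ∈ OO p) (hC : C ∈ OO p) {P Q : (Wc A B C).Point}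
    {x y : ℚ} {h : (Wc A B C).Nonsingular x y}
    (hP : P = Point.some x y h) (hx : x ∈ OO p) (hQ : Ker p Q) (k : ℕ) :
    ∃ (x' y' : ℚ) (h' : (Wc A B C).Nonsingular x' y'), P + k • Q = Point.some x' y' h' ∧
      pv p (x' - x) < 1 := by
  induction k with
  | zero =>
    refine ⟨x, y, h, ?_, ?_⟩
    · rw [zero_nsmul, add_zero, hP]
    · rw [sub_self, pv_zero]; norm_num
  | succ k ih =>
    obtain ⟨x₁, y₁, h₁, hs, hd⟩ := ih
    have hx₁ : x₁ ∈ OO p := by
      have : x₁ = (x₁ - x) + x := by ring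
      rw [this]; exact add_mem (le_of_lt hd : pv p (x₁ - x) ≤ 1) hx
    obtain ⟨x', y', h', hs', hd'⟩ := add_ker (p := p) hA hB hC (Q := Q) hs hx₁ hQ
    refine ⟨x', y', h', ?_, ?_⟩
    · rw [← hs', succ_nsmul]; abel
    · have : x' - x = (x' - x₁) + (x₁ - x) := by ring
      rw [this]; exact pv_add_lt p hd' hd

theorem exists_ker (hA : A ∈ OO p) (hB : B ∈ OO p) (hC : C ∈ OO p) (hp2 : pv p 2 = 1)
    (hbad : NoSing p A B C) (P : (Wc A B C).Point) : ∃ r : ℕ, 0 < r ∧ Ker p (r • P) := by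
  by_contra hno
  push Not at hno
  have H : ∀ r : ℕ, ∃ (x y : ℚ) (h : (Wc A B C).Nonsingular x y),
      (r + 1) • P = Point.some x y h ∧ pv p x ≤ 1 := by
    intro r
    have := hno (r + 1) (Nat.succ_pos r)
    unfold Ker at this
    push Not at this
    obtain ⟨x, y, h, h1, h2⟩ := this
    exact ⟨x, y, h, h1, h2⟩
  choose x y h hP hx using H
  have hy : ∀ r, y r ∈ OO p := fun r => y_mem hA hB hC (eqn_iff.1 (h r).1) (hx r)
  obtain ⟨a, b, hab, hh⟩ := Finite.exists_ne_map_eq_of_infinite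
    (fun k : ℕ => (rd p ⟨x k, hx k⟩, rd p ⟨y k, hy k⟩))
  wlog hlt : a < b generalizing a b
  · exact this b a hab.symm hh.symm (lt_of_le_of_ne (not_lt.1 hlt) hab.symm)
  have h1 := (rd_eq_iff (p := p) _ _).1 (congrArg Prod.fst hh).symm
  have h2 := (rd_eq_iff (p := p) _ _).1 (congrArg Prod.snd hh).symm
  simp only at h1 h2
  -- the difference
  have hdP : (b - a) • P = Point.some (x b) (y b) (h b) + -Point.some (x a) (y a) (h a) := by
    rw [← hP a, ← hP b]
    have : (b + 1) • P = (b - a) • P + (a + 1) • P := by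
      rw [← add_nsmul]; congr 1; omega
    rw [this]; abel
  apply hno (b - a) (Nat.sub_pos_of_lt hlt)
  rw [Point.neg_some] at hdP
  by_cases hne : x b = x a ∧ y b = -((Wc A B C).negY (x a) (y a))
  · intro X Y hXY hX
    have h0 : (b - a) • P = 0 := by
      rw [hdP]
      exact Point.add_of_Y_eq hne.1 (by rw [hne.2, negY_eq, negY_eq])
    rw [h0] at hX
    exact absurd hX.symm (Point.some_ne_zero hXY)
  · obtain ⟨l, X, Y, hXY, hδ, r1, r2, r3, -⟩ := add_rel (h b) ((nonsingular_neg _ _).2 (h a)) hne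
    rw [negY_eq] at r1 r2
    intro X' Y' hXY' hX'
    have hXX : X' = X := by
      rw [hdP, hδ] at hX'
      injection hX' with q1 q2
      exact q1.symm
    rw [hXX]
    exact red_sub (p := p) hA hB hC hp2 hbad (eqn_iff.1 (h b).1) (by rw [r1]; ring)
      (by rw [← r2]; ring) r3 (hx b) (hx a) h1 h2

end H17.Tw
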